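import Pool.Agent.Lib_helper18.PENK.Defs
import Pool.Agent.Lib_helper8.PENT.ZDefs

/-!
# PENT (MP_892e4c_nt): pairs of polygons, part 2 (helper18): families of pentagons
-/

set_option autoImplicit false

namespace Pool.Agent.PENK

open Finset Pool.Agent.PENT

/-- the mean over a finite set -/
noncomputable def mG {V : Type} (L : Finset V) (h : V → ℝ) : ℝ := (∑ r ∈ L, h r) / (L.card : ℝ)

/-- equidistribution of the values `pol o`, `o ∈ O`, with respect to the laws `L p`, product form;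
`cg p` is the congruence modulo `p` on `V` -/
def EquiG {ι V : Type} (O : Finset ι) (pol : ι → V) (cg : ℕ → V → V → Prop) (L : ℕ → Finset V)
    (S : Finset ℕ) (Q η : ℝ) : Prop :=
  ∀ T ⊆ S, ((∏ p ∈ T, p : ℕ) : ℝ) ≤ Q → ∀ h : ℕ → V → ℝ,
    (∀ p ∈ T, ∀ v v', cg p v v' → h p v = h p v') →
    (∀ p ∈ T, ∀ v, 0 ≤ h p v ∧ h p v ≤ 1) →
    |∑ o ∈ O, ∏ p ∈ T, h p (pol o) - O.card * ∏ p ∈ T, mG (L p) (h p)| ≤ η * O.card

/-- congruence of vectors -/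
def cg1 (p : ℕ) (v w : ℤ × ℤ) : Prop := (p : ℤ) ∣ v.1 - w.1 ∧ (p : ℤ) ∣ v.2 - w.2

/-- congruence of pairs of vectors -/
def cg2 (p : ℕ) (v w : (ℤ × ℤ) × (ℤ × ℤ)) : Prop := cg1 p v.1 w.1 ∧ cg1 p v.2 w.2

/-- the vectors modulo `p` -/
noncomputable def L1 (p : ℕ) : Finset (ℤ × ℤ) := (Ico (0 : ℤ) p) ×ˢ (Ico (0 : ℤ) p)

/-- the nonzero vectors modulo `p` -/
noncomputable def L1' (p : ℕ) : Finset (ℤ × ℤ) := (L1 p).filter (fun a => a ≠ (0, 0))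

/-- the pairs of vectors modulo `p` of determinant `δ` -/
noncomputable def L2 (δ : ℤ) (p : ℕ) : Finset ((ℤ × ℤ) × (ℤ × ℤ)) :=
  ((L1 p) ×ˢ (L1 p)).filter (fun v => (p : ℤ) ∣ dt v.1 v.2 - δ)

/-- the square -/
noncomputable def sq (A : ℕ) : Finset (ℤ × ℤ) := (Icc (-(A : ℤ)) A) ×ˢ (Icc (-(A : ℤ)) A)

/-- the primitive vectors of the square -/
noncomputable def pr (A : ℕ) : Finset (ℤ × ℤ) := (sq A).filter (fun a => Int.gcd a.1 a.2 = 1)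

open Classical in
/-- a vector `b` with `det (a, b) = δ` of smallest norm -/
noncomputable def bz (a : ℤ × ℤ) (δ : ℤ) : ℤ × ℤ :=
  if h : ∃ b : ℤ × ℤ, dt a b = δ ∧ ∀ b', dt a b' = δ → nr b ≤ nr b' then h.choose else (0, 0)

/-- the indices of the family of pairs: `a` primitive, `|a| ≤ A`, `|t| ≤ k` -/
noncomputable def OP (A k : ℕ) : Finset ((ℤ × ℤ) × ℤ) := (pr A) ×ˢ (Icc (-(k : ℤ)) k)

/-- the pair `(a, bz a δ + t a)` -/
noncomputable def pP (δ : ℤ) (o : (ℤ × ℤ) × ℤ) : (ℤ × ℤ) × (ℤ × ℤ) :=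
  (o.1, ((bz o.1 δ).1 + o.2 * o.1.1, (bz o.1 δ).2 + o.2 * o.1.2))

/-- the indices of the families of pentagons -/
abbrev I5 := (((ℤ × ℤ) × ℤ) × ((ℤ × ℤ) × ℤ)) × (ℤ × ℤ)

/-- the pentagon with the pairs `w` (for `u_1, u_2`; the shorter vector first; `f1`: `u_1` is the
shorter one), `z` (for `u_4, u_0`; `f4`: `u_4` is the shorter one), and `u_3` -/
def asm5 (f1 f4 : Bool)
    (v : (((ℤ × ℤ) × (ℤ × ℤ)) × ((ℤ × ℤ) × (ℤ × ℤ))) × (ℤ × ℤ)) : PolyK 5 :=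
  ![if f4 then v.1.2.2 else v.1.2.1, if f1 then v.1.1.1 else v.1.1.2,
    if f1 then v.1.1.2 else v.1.1.1, v.2, if f4 then v.1.2.1 else v.1.2.2]

/-- the sign -/
def sgb (f : Bool) (δ : ℤ) : ℤ := if f then δ else -δ

/-- the index set of the family of pentagons with sizes `|u_j| < 2 ^ (i j + 1)` -/
noncomputable def O5 (i : Fin 5 → ℕ) : Finset I5 :=
  ((OP (2 ^ (min (i 1) (i 2) + 1)) (4 * 2 ^ (max (i 1) (i 2) - min (i 1) (i 2)))) ×ˢ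
    (OP (2 ^ (min (i 4) (i 0) + 1)) (4 * 2 ^ (max (i 4) (i 0) - min (i 4) (i 0))))) ×ˢ
    (sq (2 ^ (i 3 + 1)))

/-- the family with `dl_1 = δ1`, `dl_4 = δ4` -/
noncomputable def pol5 (i : Fin 5 → ℕ) (δ1 δ4 : ℤ) (o : I5) : PolyK 5 :=
  asm5 (decide (i 1 < i 2)) (decide (i 4 < i 0))
    ((pP (sgb (decide (i 1 < i 2)) δ1) o.1.1, pP (sgb (decide (i 4 < i 0)) δ4) o.1.2), o.2)

/-- the law modulo `p`: `dl_1 = δ1`, `dl_4 = δ4`, `u_3` free -/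
noncomputable def Law5 (δ1 δ4 : ℤ) (p : ℕ) : Finset (PolyK 5) :=
  (Fintype.piFinset (fun _ : Fin 5 => L1 p)).filter
    (fun u => (p : ℤ) ∣ dl u 1 - δ1 ∧ (p : ℤ) ∣ dl u 4 - δ4)

/-- the dyadic sizes of `u` are `i` -/
def Siz {K : ℕ} (i : Fin K → ℕ) (u : PolyK K) : Prop :=
  ∀ j, 2 ^ i j ≤ nr (u j) ∧ nr (u j) < 2 ^ (i j + 1)

/-- admissible sizes -/
def SizOk {K : ℕ} (q : Par K) (x : ℝ) (i : Fin K → ℕ) : Prop :=
  ∀ j, x ^ q.e j / 2 ≤ (2 : ℝ) ^ i j ∧ (2 : ℝ) ^ i j ≤ x ^ (q.e j + q.ε / 50)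

/-- the pairs of polygons which occur -/
structure PairOk {K : ℕ} [NeZero K] (q : Par K) (x : ℝ) (P0 : ℕ) (s : PolyK K × PolyK K) :
    Prop where
  p1 : IsPoly q x P0 s.1
  p2 : IsPoly q x P0 s.2
  s1 : Sep q s.1
  s2 : Sep q s.2
  o1 : One4 s.1
  o2 : One4 s.2
  cp : Compat q s.1 s.2

/-- the weights of the pentagon theorem -/
noncomputable def W5 : Wts 5 := ⟨fun _ => 1 / 4, fun _ => 1 / 4, fun _ => 1 / 2⟩

open Classical in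
/-- squarefree, all prime factors `1 mod 4` and `> P0`, `≤ x` -/
noncomputable def DP0 (P0 x : ℕ) : Finset ℕ :=
  (Icc 1 x).filter (fun d => Squarefree d ∧ ∀ p : ℕ, p.Prime → p ∣ d → P0 < p ∧ p % 4 = 1)

end Pool.Agent.PENK
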