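import Pool.Agent.Lib_helper8.PENT.Frame
import Pool.Agent.Lib_helper8.PENT.BH

/-!
# PENT (MP_892e4c_nt): pairs of polygons over one base (helper18)

Definitions for the pairs theorem (text: PENT_pairs_helper18.md), for `K`-gons (`Fin K`, `5 ≤ K`).
Base edge `0`; special edges `1` and `-1`; the other edges are the interior edges `inr K`;
the interior vertices `ivr K` are the vertices `k ≠ 0, 1`.
-/

set_option autoImplicit false

namespace Pool.Agent.PENK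

open Finset Pool.Agent.PENT

/-- `K`-gons of integer vectors -/
abbrev PolyK (K : ℕ) := Fin K → ℤ × ℤ

/-- bases `R = (g, n, g')` -/
abbrev Bas := ℤ × ℤ × ℤ

/-- the norm `|v.1| + |v.2|` -/
def nr (v : ℤ × ℤ) : ℕ := v.1.natAbs + v.2.natAbs

/-- the signed determinants `dl_j = det (u_j, u_(j+1))` -/
def dl {K : ℕ} [NeZero K] (u : PolyK K) (j : Fin K) : ℤ := dt (u j) (u (j + 1))

/-- `d_j` -/
def dn {K : ℕ} [NeZero K] (u : PolyK K) (j : Fin K) : ℕ := (dl u j).natAbs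

/-- `D(u) = ∏ d_j` -/
def DD {K : ℕ} [NeZero K] (u : PolyK K) : ℕ := ∏ j, dn u j

/-- the interior edges -/
def inr (K : ℕ) [NeZero K] : Finset (Fin K) := univ.filter (fun j => j ≠ 1 ∧ j ≠ -1)

/-- the interior vertices -/
def ivr (K : ℕ) [NeZero K] : Finset (Fin K) := univ.filter (fun k => k ≠ 0 ∧ k ≠ 1)

/-- the product of the interior `d_j` -/
def bad {K : ℕ} [NeZero K] (u : PolyK K) : ℕ := ∏ j ∈ inr K, dn u j

/-- the vector `u_k` in the frame of the base: `c_k = (det (u_k, u_1), det (u_0, u_k))` -/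
def cv {K : ℕ} [NeZero K] (u : PolyK K) (k : Fin K) : ℤ × ℤ := (dt (u k) (u 1), dt (u 0) (u k))

/-- the value of the form `R` -/
def Rf (R : Bas) (c : ℤ × ℤ) : ℤ := qf R.1 R.2.1 R.2.2 c

/-- the parameters -/
structure Par (K : ℕ) where
  /-- the sizes `|u_j| ~ x ^ e_j` -/
  e : Fin K → ℝ
  /-- the windows are `[x ^ e_j, x ^ (e_j + ε / 50)]` -/
  ε : ℝ
  /-- the exponent of the equidistribution -/
  δ : ℝ
  c3 : ℝ
  C4 : ℝ
  /-- the signs of the determinants -/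
  σ : Fin K → Fin K → ℤ

structure Par.Ok {K : ℕ} (q : Par K) : Prop where
  ε0 : 0 < q.ε
  δ0 : 0 < q.δ
  δ1 : q.δ ≤ 1 / 10
  he : ∀ j, 0 ≤ q.e j
  hs : ∑ j, (q.e j + q.ε) ≤ q.δ / 50
  c30 : 0 < q.c3
  c31 : q.c3 ≤ 1
  C41 : 1 ≤ q.C4
  hσ : ∀ i j, q.σ i j = 1 ∨ q.σ i j = -1

/-- positive sizes with gaps between adjacent vertices (pentagon) -/
structure Par.Gap {K : ℕ} [NeZero K] (q : Par K) : Prop where
  he : ∀ j, 4 * q.ε ≤ q.e j
  hg : ∀ j, 4 * q.ε ≤ |q.e j - q.e (j + 1)|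

/-- the polygons of the family -/
structure IsPoly {K : ℕ} [NeZero K] (q : Par K) (x : ℝ) (P0 : ℕ) (u : PolyK K) : Prop where
  lo : ∀ j, x ^ q.e j ≤ (nr (u j) : ℝ)
  hi : ∀ j, (nr (u j) : ℝ) ≤ x ^ (q.e j + q.ε / 50)
  sg : ∀ i j, i ≠ j → 0 < q.σ i j * dt (u i) (u j)
  sq : ∀ j, Squarefree (dn u j)
  ro : ∀ j p, p.Prime → p ∣ dn u j → P0 < p
  co : ∀ i j, i ≠ j → Nat.Coprime (dn u i) (dn u j)
  nd : ∀ j k, k ≠ j → k ≠ j + 1 → Nat.Coprime (dn u j) (dt (u j) (u k)).natAbs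

/-- separated directions -/
def Sep {K : ℕ} (q : Par K) (u : PolyK K) : Prop :=
  ∀ i j, i ≠ j → q.c3 * nr (u i) * nr (u j) ≤ |(dt (u i) (u j) : ℝ)|

/-- the base `R` is good for `u`, with the sizes -/
structure Over {K : ℕ} [NeZero K] (q : Par K) (x : ℝ) (R : Bas) (u : PolyK K) : Prop where
  disc : R.1 * R.2.2 - R.2.1 ^ 2 = 1
  pos : 0 < R.1
  dm : dl u (-1) ∣ R.1
  d1 : dl u 1 ∣ R.2.2
  d0 : dl u 0 ∣ Rf R (cv u 2)
  dj : ∀ j ∈ inr K, j ≠ 0 → dl u j ∣ Rf R (cv u j)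
  g1 : x * nr (u 0) ≤ q.C4 * R.1 * nr (u 1)
  g2 : (R.1 : ℝ) * nr (u 1) ≤ q.C4 * x * nr (u 0)
  n1 : |(R.2.1 : ℝ)| ≤ q.C4 * x

/-- the same determinants (= equivalent under `SL₂(ℤ)`) -/
def SameD {K : ℕ} (u u' : PolyK K) : Prop := ∀ i j, dt (u i) (u j) = dt (u' i) (u' j)

/-! ### forms modulo `p` -/

/-- the forms modulo `p` of determinant `1` -/
noncomputable def VV (p : ℕ) : Finset Bas :=
  ((Ico (0 : ℤ) p) ×ˢ (Ico (0 : ℤ) p) ×ˢ (Ico (0 : ℤ) p)).filter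
    (fun r => (p : ℤ) ∣ r.1 * r.2.2 - r.2.1 ^ 2 - 1)

/-- the mean over the forms modulo `p` -/
noncomputable def mV (p : ℕ) (h : Bas → ℝ) : ℝ := (∑ r ∈ VV p, h r) / ((VV p).card : ℝ)

/-- functions of the form modulo `p` -/
def PerV (p : ℕ) (h : Bas → ℝ) : Prop := ∀ r r' : Bas, (p : ℤ) ∣ r.1 - r'.1 →
  (p : ℤ) ∣ r.2.1 - r'.2.1 → (p : ℤ) ∣ r.2.2 - r'.2.2 → h r = h r'

/-- (EQ-Q) = MAJ: a majorant family for the bases, equidistributed modulo squarefree odd numbers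
(product form) -/
def EQQ (δ : ℝ) : Prop := ∀ C4 : ℝ, 1 ≤ C4 → ∃ C x₀ : ℝ, 0 < C ∧ 2 ≤ x₀ ∧ ∀ x ≥ x₀, ∀ G : ℝ,
  x ^ (1 - δ) ≤ G → G ≤ x ^ (1 + δ) → ∃ (O : Finset Bas) (f : Bas → Bas),
    (∀ R : Bas, R.1 * R.2.2 - R.2.1 ^ 2 = 1 → G < (R.1 : ℝ) → (R.1 : ℝ) ≤ 2 * G →
      |(R.2.1 : ℝ)| ≤ C4 * x → ∃ o ∈ O, f o = R) ∧
    (O.card : ℝ) ≤ C * x ∧
    ∀ (T : Finset ℕ) (h : ℕ → Bas → ℝ), (∀ p ∈ T, p.Prime ∧ 2 < p) →
      ((∏ p ∈ T, p : ℕ) : ℝ) ≤ x ^ δ → (∀ p ∈ T, PerV p (h p)) →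
      (∀ p ∈ T, ∀ r, 0 ≤ h p r ∧ h p r ≤ 1) →
      |∑ o ∈ O, ∏ p ∈ T, h p (f o) - O.card * ∏ p ∈ T, mV p (h p)| ≤ x ^ (1 - δ)

/-! ### weights -/

/-- the weights: `al j` at `p ∣ d_j`, `be j` at `p ∣ y_j` (`P0 < p ≤ P`), `bo j` at `p ∣ y_j`
(`p ≤ P0`) -/
structure Wts (K : ℕ) where
  al : Fin K → ℝ
  be : Fin K → ℝ
  bo : Fin K → ℝ

/-- `s_0 = be_0 + al_(-1)` -/
def Wts.s0 {K : ℕ} [NeZero K] (W : Wts K) : ℝ := W.be 0 + W.al (-1)

/-- `s_1 = be_1 + al_1` -/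
def Wts.s1 {K : ℕ} [NeZero K] (W : Wts K) : ℝ := W.be 1 + W.al 1

structure Wts.Ok {K : ℕ} [NeZero K] (W : Wts K) : Prop where
  al0 : ∀ j, 0 ≤ W.al j
  al1 : ∀ j, W.al j ≤ 1 / 2
  be0 : ∀ j, 0 < W.be j
  be1 : ∀ j, W.be j ≤ 1
  bo0 : ∀ j, 0 ≤ W.bo j
  bo1 : ∀ j, W.bo j ≤ 1

/-- the primes in `(a, b]` -/
def prs (a b : ℕ) : Finset ℕ := (Ioc a b).filter Nat.Prime

/-- `α` if `p ∣ a`, else `1` -/
noncomputable def ind (p : ℕ) (a : ℤ) (α : ℝ) : ℝ := if (p : ℤ) ∣ a then α else 1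

/-- the local weight of `g` -/
noncomputable def Wts.g0 {K : ℕ} [NeZero K] (W : Wts K) (P0 p : ℕ) : ℝ :=
  if p ≤ P0 then W.bo 0 else W.be 0 ^ 2 / W.s0

/-- the local weight of `g'` -/
noncomputable def Wts.g1 {K : ℕ} [NeZero K] (W : Wts K) (P0 p : ℕ) : ℝ :=
  if p ≤ P0 then W.bo 1 else W.be 1 ^ 2 / W.s1

/-- the local weight of the inner form `R(c_k)` -/
noncomputable def Wts.gi {K : ℕ} (W : Wts K) (P0 p : ℕ) (k : Fin K) : ℝ :=
  if p ≤ P0 then W.bo k else W.be k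

/-- the local factor at `p ∤ D(u) D(u')` -/
noncomputable def phi {K : ℕ} [NeZero K] (W : Wts K) (P0 : ℕ) (u u' : PolyK K) (p : ℕ)
    (R : Bas) : ℝ :=
  ind p R.1 (W.g0 P0 p) * ind p R.2.2 (W.g1 P0 p) *
    ((∏ k ∈ ivr K, ind p (Rf R (cv u k)) (W.gi P0 p k)) *
      ∏ k ∈ ivr K, ind p (Rf R (cv u' k)) (W.gi P0 p k))

/-- the weight `α` for `p ≤ P`, `1` for `p > P` -/
noncomputable def lw (P p : ℕ) (α : ℝ) : ℝ := if p ≤ P then α else 1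

/-- the local factor of the interior edges of `u` -/
noncomputable def thi {K : ℕ} [NeZero K] (W : Wts K) (P : ℕ) (u : PolyK K) (p : ℕ) : ℝ :=
  ∏ j ∈ inr K, if p ∣ dn u j then lw P p (W.al j) else 1

/-- the local factor of a special edge (`a`: divides `d`, `b`: divides `d'`) -/
noncomputable def ths (P p : ℕ) (both one : ℝ) (a b : Prop) [Decidable a] [Decidable b] : ℝ :=
  if a ∧ b then lw P p both else if a ∨ b then lw P p one else 1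

/-- the local factor at `p ∣ D(u) D(u')` -/
noncomputable def th {K : ℕ} [NeZero K] (W : Wts K) (P : ℕ) (u u' : PolyK K) (p : ℕ) : ℝ :=
  thi W P u p * thi W P u' p *
    (ths P p (W.al 1 ^ 2 / W.s1) (W.al 1 * W.be 1 / W.s1) (p ∣ dn u 1) (p ∣ dn u' 1) *
      ths P p (W.al (-1) ^ 2 / W.s0) (W.al (-1) * W.be 0 / W.s0) (p ∣ dn u (-1)) (p ∣ dn u' (-1)))

/-- the weight of a pair over a base -/
noncomputable def Wt {K : ℕ} [NeZero K] (W : Wts K) (P0 P : ℕ) (u u' : PolyK K) (R : Bas) : ℝ :=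
  ∏ p ∈ prs 2 P, if p ∣ DD u * DD u' then th W P u u' p else phi W P0 u u' p R

open Classical in
/-- the line of `u` at `p ∣ D(u)` -/
noncomputable def Lv {K : ℕ} [NeZero K] (u : PolyK K) (p : ℕ) : ℤ × ℤ :=
  if p ∣ dn u 1 then (0, 1) else if p ∣ dn u (-1) then (1, 0)
  else if p ∣ dn u 0 then cv u 2
  else if h : ∃ j ∈ inr K, j ≠ 0 ∧ p ∣ dn u j then cv u h.choose else (0, 0)

/-- the lines of `u` and `u'` at `p` agree -/
def SameL {K : ℕ} [NeZero K] (u u' : PolyK K) (p : ℕ) : Prop := (p : ℤ) ∣ dt (Lv u p) (Lv u' p)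

open Classical in
/-- the probability that a form is good for `u` and `u'` at `p ∣ D(u) D(u')` -/
noncomputable def pip {K : ℕ} [NeZero K] (u u' : PolyK K) (p : ℕ) : ℝ :=
  if p ∣ DD u ∧ p ∣ DD u' ∧ ¬ SameL u u' p then 2 / ((p : ℝ) * (p + 1)) else 2 / ((p : ℝ) + 1)

/-- the probability that a form is good for `u` and `u'` -/
noncomputable def pit {K : ℕ} [NeZero K] (u u' : PolyK K) : ℝ :=
  ∏ p ∈ (DD u * DD u').primeFactors, pip u u' p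

/-- `v_p(u,u')` -/
noncomputable def vv {K : ℕ} [NeZero K] (W : Wts K) (P0 : ℕ) (u u' : PolyK K) (p : ℕ) : ℝ :=
  mV p (fun R => 1 - phi W P0 u u' p R)

/-- `Θ(u,u')` -/
noncomputable def TH {K : ℕ} [NeZero K] (W : Wts K) (P : ℕ) (u u' : PolyK K) : ℝ :=
  ∏ p ∈ (DD u * DD u').primeFactors, pip u u' p * th W P u u' p

/-- the product over `p ∤ D(u) D(u')` after the sum over the bases (primes `> 100 K` only) -/
noncomputable def VP {K : ℕ} [NeZero K] (W : Wts K) (P0 P : ℕ) (u u' : PolyK K) : ℝ :=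
  ∏ p ∈ (prs (100 * K) P).filter (fun p => ¬ p ∣ DD u * DD u'), (1 - vv W P0 u u' p)

open Classical in
/-- the common primes of interior edges on the same line -/
noncomputable def Gc {K : ℕ} [NeZero K] (u u' : PolyK K) : ℕ :=
  ∏ p ∈ (Nat.gcd (bad u) (bad u')).primeFactors.filter (SameL u u'), p

/-- the part of the upper bound for `Θ` at the interior edges of `u` -/
noncomputable def wi {K : ℕ} [NeZero K] (W : Wts K) (P : ℕ) (u : PolyK K) : ℝ :=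
  ∏ j ∈ inr K, ∏ p ∈ (dn u j).primeFactors, 2 * lw P p (W.al j) / p

/-- the part of the upper bound for `Θ` at a special edge with the values `d, d'` -/
noncomputable def wsp (P : ℕ) (both one : ℝ) (d d' : ℕ) : ℝ :=
  ∏ p ∈ (d * d').primeFactors, 2 * (if p ∣ d ∧ p ∣ d' then lw P p both else lw P p one) / p

/-- the upper bound for `Θ` -/
noncomputable def ThB {K : ℕ} [NeZero K] (W : Wts K) (P : ℕ) (u u' : PolyK K) : ℝ :=
  (∏ p ∈ (Gc u u').primeFactors, (p : ℝ) / 2) * (wi W P u * wi W P u') *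
    (wsp P (W.al 1 ^ 2 / W.s1) (W.al 1 * W.be 1 / W.s1) (dn u 1) (dn u' 1) *
      wsp P (W.al (-1) ^ 2 / W.s0) (W.al (-1) * W.be 0 / W.s0) (dn u (-1)) (dn u' (-1)))

/-- all primes of `D(u)` are `1 mod 4` -/
def One4 {K : ℕ} [NeZero K] (u : PolyK K) : Prop := ∀ p : ℕ, p.Prime → p ∣ DD u → p % 4 = 1

/-- the scales are compatible (there is a common base) -/
def Compat {K : ℕ} [NeZero K] (q : Par K) (u u' : PolyK K) : Prop :=
  (nr (u 0) : ℝ) * nr (u' 1) ≤ q.C4 ^ 2 * (nr (u 1) * nr (u' 0)) ∧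
    (nr (u' 0) : ℝ) * nr (u 1) ≤ q.C4 ^ 2 * (nr (u' 1) * nr (u 0))

/-- the function sifted in the second step: the factor of the pair `(u,u')` at `p` -/
noncomputable def Phi {K : ℕ} [NeZero K] (W : Wts K) (P0 : ℕ) (u u' : PolyK K) (p : ℕ) : ℝ :=
  if p ∣ bad u * bad u' then
    (if p ≤ P0 ∨ p % 4 = 3 then 0 else
      (∏ j ∈ inr K, if p ∣ dn u j then 2 * W.al j else 1) *
        ∏ j ∈ inr K, if p ∣ dn u' j then 2 * W.al j else 1)
  else 1 - vv W P0 u u' p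

/-! ### families -/

/-- functions of the polygon modulo `p` -/
def PerP {K : ℕ} (p : ℕ) (h : PolyK K → ℝ) : Prop := ∀ u u' : PolyK K,
  (∀ j, (p : ℤ) ∣ (u j).1 - (u' j).1 ∧ (p : ℤ) ∣ (u j).2 - (u' j).2) → h u = h u'

/-- the mean over a finite set of polygons (a law modulo `p`) -/
noncomputable def mL {K : ℕ} (L : Finset (PolyK K)) (h : PolyK K → ℝ) : ℝ :=
  (∑ r ∈ L, h r) / (L.card : ℝ)

/-- equidistribution of a finite family of polygons with respect to laws `L p`, product form -/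
def EquiF {K : ℕ} {ι : Type} (O : Finset ι) (pol : ι → PolyK K) (L : ℕ → Finset (PolyK K))
    (S : Finset ℕ) (Q η : ℝ) : Prop :=
  ∀ T ⊆ S, ((∏ p ∈ T, p : ℕ) : ℝ) ≤ Q → ∀ h : ℕ → PolyK K → ℝ, (∀ p ∈ T, PerP p (h p)) →
    (∀ p ∈ T, ∀ u, 0 ≤ h p u ∧ h p u ≤ 1) →
    |∑ o ∈ O, ∏ p ∈ T, h p (pol o) - O.card * ∏ p ∈ T, mL (L p) (h p)| ≤ η * O.card

open Classical in
/-- the indicator of a property -/
noncomputable def ich (a : Prop) : ℝ := if a then 1 else 0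

/-- the local facts about a law of polygons modulo `p`; `op`: the open edges (of determinant one, empty
for closed polygons) -/
structure LocF {K : ℕ} [NeZero K] (op : Finset (Fin K)) (p : ℕ) (L : Finset (PolyK K)) (C : ℝ) :
    Prop where
  ne : L.Nonempty
  /-- every interior edge which is not open is `0` with probability about `1/p` -/
  a : ∀ j ∈ inr K \ op, 1 / (p : ℝ) - C / (p : ℝ) ^ 2 ≤ mL L (fun u => ich ((p : ℤ) ∣ dl u j))
  a' : ∀ j ∈ inr K \ op, mL L (fun u => ich ((p : ℤ) ∣ dl u j)) ≤ C / p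
  /-- two interior edges are rarely both `0` -/
  b : ∀ i ∈ inr K \ op, ∀ j ∈ inr K \ op, i ≠ j →
    mL L (fun u => ich ((p : ℤ) ∣ dl u i ∧ (p : ℤ) ∣ dl u j)) ≤ C / (p : ℝ) ^ 2
  /-- `c_k` rarely lies on a given line -/
  c : ∀ k ∈ ivr K, ∀ v : ℤ × ℤ, ¬ ((p : ℤ) ∣ v.1 ∧ (p : ℤ) ∣ v.2) →
    mL L (fun u => ich (¬ (p : ℤ) ∣ bad u ∧ (p : ℤ) ∣ dt (cv u k) v)) ≤ C / p
  /-- `c_i`, `c_j` are rarely parallel -/
  d : ∀ i ∈ ivr K, ∀ j ∈ ivr K, i ≠ j →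
    mL L (fun u => ich (¬ (p : ℤ) ∣ bad u ∧ (p : ℤ) ∣ dt (cv u i) (cv u j))) ≤ C / p
  /-- the special edges and the open edges are never `0` modulo `p` -/
  s1 : ∀ u ∈ L, ¬ (p : ℤ) ∣ dl u 1
  sm : ∀ u ∈ L, ¬ (p : ℤ) ∣ dl u (-1)
  so : ∀ u ∈ L, ∀ j ∈ op, ¬ (p : ℤ) ∣ dl u j

end Pool.Agent.PENK
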